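import Mathlib

/-!
# Left forbidding E0L grammars are more powerful than ET0L grammars

Symbols are natural numbers. The language `{(abⁿ)ᵐ : 1 ≤ m ≤ n}` is generated by a propagating
left forbidding E0L grammar but by no ET0L grammar.
-/

namespace Pool.Agent.Results.MP_7f9305_lc.LFNotET0L

/-- `Par P u v`: `u = X₁⋯Xₖ`, `v = y₁⋯yₖ` with all rules `Xᵢ → yᵢ` in the table `P`. -/
inductive Par (P : Finset (ℕ × List ℕ)) : List ℕ → List ℕ → Prop
  | nil : Par P [] []
  | cons {X : ℕ} {y u v : List ℕ} : (X, y) ∈ P → Par P u v → Par P (X :: u) (y ++ v)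

/-- An ET0L grammar: total alphabet `V`, terminals `T ⊆ V`, a nonempty finite set of tables,
each a finite set of rules over `V` having at least one rule for every symbol of `V`, and an
axiom `w ∈ V⁺`. -/
structure ET0L where
  /-- total alphabet -/
  V : Finset ℕ
  /-- terminals -/
  T : Finset ℕ
  /-- tables -/
  tables : Finset (Finset (ℕ × List ℕ))
  /-- axiom -/
  w : List ℕ
  T_sub : T ⊆ V
  tables_ne : tables.Nonempty
  rules : ∀ P ∈ tables, ∀ r ∈ P, r.1 ∈ V ∧ ∀ s ∈ r.2, s ∈ V
  complete : ∀ P ∈ tables, ∀ X ∈ V, ∃ y, (X, y) ∈ P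
  w_ne : w ≠ []
  w_mem : ∀ s ∈ w, s ∈ V

/-- A derivation step of an ET0L grammar: a nonempty word is rewritten in parallel by one
table. -/
def ET0L.Step (G : ET0L) (u v : List ℕ) : Prop := u ≠ [] ∧ ∃ P ∈ G.tables, Par P u v

/-- The language of an ET0L grammar. -/
def ET0L.lang (G : ET0L) : Set (List ℕ) :=
  {x | (∀ s ∈ x, s ∈ G.T) ∧ Relation.ReflTransGen G.Step G.w x}

/-- `LFRew P left u v`: the word `u`, preceded by the word `left`, is rewritten in parallel into
`v`; a rule `(X → y, ∅, W)` is applicable at an occurrence of `X` iff no symbol of `W` occurs to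
the left of it. -/
inductive LFRew (P : Finset (ℕ × List ℕ × Finset ℕ)) : List ℕ → List ℕ → List ℕ → Prop
  | nil (left : List ℕ) : LFRew P left [] []
  | cons {left : List ℕ} {X : ℕ} {y : List ℕ} {W : Finset ℕ} {u v : List ℕ} :
      (X, y, W) ∈ P → (∀ Z ∈ left, Z ∉ W) → LFRew P (left ++ [X]) u v →
      LFRew P left (X :: u) (y ++ v)

/-- A left forbidding E0L grammar: total alphabet `V`, terminals `T ⊆ V`, finitely many rules
`(X → y, ∅, W)` with `X ∈ V`, `y ∈ V*`, `W ⊆ V \ T`, and an axiom `w ∈ V⁺`. -/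
structure LFE0L where
  /-- total alphabet -/
  V : Finset ℕ
  /-- terminals -/
  T : Finset ℕ
  /-- rules `(X, y, W)` -/
  P : Finset (ℕ × List ℕ × Finset ℕ)
  /-- axiom -/
  w : List ℕ
  T_sub : T ⊆ V
  rules : ∀ r ∈ P, r.1 ∈ V ∧ (∀ s ∈ r.2.1, s ∈ V) ∧ r.2.2 ⊆ V \ T
  w_ne : w ≠ []
  w_mem : ∀ s ∈ w, s ∈ V

/-- A derivation step of a left forbidding E0L grammar. -/
def LFE0L.Step (G : LFE0L) (u v : List ℕ) : Prop := u ≠ [] ∧ LFRew G.P [] u v

/-- The language of a left forbidding E0L grammar. -/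
def LFE0L.lang (G : LFE0L) : Set (List ℕ) :=
  {x | (∀ s ∈ x, s ∈ G.T) ∧ Relation.ReflTransGen G.Step G.w x}

/-- `G` is propagating: it has no rule with empty right-hand side. -/
def LFE0L.Propagating (G : LFE0L) : Prop := ∀ r ∈ G.P, r.2.1 ≠ []

/-- `m` copies of the word `X Yᵏ`. -/
def blk (X Y k m : ℕ) : List ℕ := (List.replicate m (X :: List.replicate k Y)).flatten

/-- The language `{(abⁿ)ᵐ : 1 ≤ m ≤ n}` with `a = 0` and `b = 1`. -/
def LL : Set (List ℕ) := {x | ∃ m n, 1 ≤ m ∧ m ≤ n ∧ x = blk 0 1 n m}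

theorem blk_zero (X Y k : ℕ) : blk X Y k 0 = [] := rfl

theorem blk_succ (X Y k m : ℕ) : blk X Y k (m + 1) = (X :: List.replicate k Y) ++ blk X Y k m := by
  simp [blk, List.replicate_succ]

theorem blk_succ' (X Y k m : ℕ) : blk X Y k (m + 1) = blk X Y k m ++ (X :: List.replicate k Y) := by
  simp [blk, List.replicate_succ']

/-! ### The language is not ET0L -/

section NotET0L

theorem par_append {P : Finset (ℕ × List ℕ)} {u1 u2 v1 v2 : List ℕ} (h1 : Par P u1 v1)
    (h2 : Par P u2 v2) : Par P (u1 ++ u2) (v1 ++ v2) := by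
  induction h1 with
  | nil => exact h2
  | cons hr _ ih =>
    rw [List.cons_append, List.append_assoc]
    exact Par.cons hr ih

theorem par_split {P : Finset (ℕ × List ℕ)} : ∀ {u1 u2 v : List ℕ}, Par P (u1 ++ u2) v →
    ∃ v1 v2, v = v1 ++ v2 ∧ Par P u1 v1 ∧ Par P u2 v2 := by
  intro u1
  induction u1 with
  | nil => intro u2 v h; exact ⟨[], v, rfl, Par.nil, h⟩
  | cons X u1 ih =>
    intro u2 v h
    rw [List.cons_append] at h
    cases h with
    | cons hr h' =>
      obtain ⟨v1, v2, rfl, h1, h2⟩ := ih h'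
      exact ⟨_ ++ v1, v2, by rw [List.append_assoc], Par.cons hr h1, h2⟩

/-- Derivations with a prescribed sequence of tables. -/
def Der : List (Finset (ℕ × List ℕ)) → List ℕ → List ℕ → Prop
  | [], u, v => u = v
  | P :: hs, u, v => ∃ u', Par P u u' ∧ Der hs u' v

theorem der_append : ∀ {hs : List (Finset (ℕ × List ℕ))} {u1 u2 v1 v2 : List ℕ},
    Der hs u1 v1 → Der hs u2 v2 → Der hs (u1 ++ u2) (v1 ++ v2) := by
  intro hs
  induction hs with
  | nil =>
    intro u1 u2 v1 v2 h1 h2
    have e1 : u1 = v1 := h1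
    have e2 : u2 = v2 := h2
    subst e1 e2
    rfl
  | cons P hs ih =>
    rintro u1 u2 v1 v2 ⟨w1, h1, h1'⟩ ⟨w2, h2, h2'⟩
    exact ⟨w1 ++ w2, par_append h1 h2, ih h1' h2'⟩

theorem der_split : ∀ {hs : List (Finset (ℕ × List ℕ))} {u1 u2 v : List ℕ},
    Der hs (u1 ++ u2) v → ∃ v1 v2, v = v1 ++ v2 ∧ Der hs u1 v1 ∧ Der hs u2 v2 := by
  intro hs
  induction hs with
  | nil => intro u1 u2 v h; exact ⟨u1, u2, (show u1 ++ u2 = v from h).symm, rfl, rfl⟩
  | cons P hs ih =>
    rintro u1 u2 v ⟨u', hp, hd⟩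
    obtain ⟨w1, w2, rfl, h1, h2⟩ := par_split hp
    obtain ⟨v1, v2, rfl, d1, d2⟩ := ih hd
    exact ⟨v1, v2, rfl, ⟨w1, h1, d1⟩, ⟨w2, h2, d2⟩⟩

theorem der_nil : ∀ {hs : List (Finset (ℕ × List ℕ))} {v : List ℕ}, Der hs [] v → v = [] := by
  intro hs
  induction hs with
  | nil => intro v h; exact (show [] = v from h).symm
  | cons P hs ih =>
    rintro v ⟨u', hp, hd⟩
    cases hp
    exact ih hd

theorem der_nil' : ∀ hs : List (Finset (ℕ × List ℕ)), Der hs [] [] := by
  intro hs
  induction hs with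
  | nil => rfl
  | cons P hs ih => exact ⟨[], Par.nil, ih⟩

theorem der_trans : ∀ {hs hs' : List (Finset (ℕ × List ℕ))} {u v w : List ℕ},
    Der hs u v → Der hs' v w → Der (hs ++ hs') u w := by
  intro hs
  induction hs with
  | nil =>
    intro hs' u v w h1 h2
    have e : u = v := h1
    subst e
    exact h2
  | cons P hs ih =>
    rintro hs' u v w ⟨u', hp, hd⟩ h2
    exact ⟨u', hp, ih hd h2⟩

theorem steps_of_der (G : ET0L) : ∀ {hs : List (Finset (ℕ × List ℕ))} {u v : List ℕ},
    (∀ P ∈ hs, P ∈ G.tables) → v ≠ [] → Der hs u v → Relation.ReflTransGen G.Step u v := by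
  intro hs
  induction hs with
  | nil =>
    intro u v _ _ h
    have e : u = v := h
    subst e
    exact Relation.ReflTransGen.refl
  | cons P hs ih =>
    rintro u v hP hv ⟨u', hp, hd⟩
    refine Relation.ReflTransGen.head ?_ (ih (fun Q hQ => hP Q (by simp [hQ])) hv hd)
    refine ⟨?_, P, hP P (by simp), hp⟩
    rintro rfl
    cases hp
    exact hv (der_nil hd)

theorem der_of_steps (G : ET0L) {u v : List ℕ} (h : Relation.ReflTransGen G.Step u v) :
    ∃ hs : List (Finset (ℕ × List ℕ)), (∀ P ∈ hs, P ∈ G.tables) ∧ Der hs u v := by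
  induction h using Relation.ReflTransGen.head_induction_on with
  | refl => exact ⟨[], by simp, rfl⟩
  | head hstep _ ih =>
    obtain ⟨hs, h1, h2⟩ := ih
    obtain ⟨_, P, hP, hpar⟩ := hstep
    refine ⟨P :: hs, ?_, _, hpar, h2⟩
    intro Q hQ
    rcases List.mem_cons.1 hQ with rfl | hQ
    · exact hP
    · exact h1 Q hQ

/-- Annotated words: each symbol together with the word derived from it. -/
def Ann (hs : List (Finset (ℕ × List ℕ))) (l : List (ℕ × List ℕ)) : Prop :=
  ∀ e ∈ l, Der hs [e.1] e.2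

theorem ann_exists {hs : List (Finset (ℕ × List ℕ))} : ∀ {u v : List ℕ}, Der hs u v →
    ∃ l : List (ℕ × List ℕ), l.map Prod.fst = u ∧ (l.map Prod.snd).flatten = v ∧ Ann hs l := by
  intro u
  induction u with
  | nil =>
    intro v h
    exact ⟨[], rfl, (der_nil h).symm, by intro e he; simp at he⟩
  | cons X u ih =>
    intro v h
    obtain ⟨v1, v2, rfl, h1, h2⟩ := der_split (u1 := [X]) h
    obtain ⟨l, rfl, rfl, hl⟩ := ih h2
    refine ⟨(X, v1) :: l, rfl, rfl, ?_⟩
    intro e he
    rcases List.mem_cons.1 he with rfl | he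
    · exact h1
    · exact hl e he

theorem ann_der {hs : List (Finset (ℕ × List ℕ))} : ∀ {l : List (ℕ × List ℕ)}, Ann hs l →
    Der hs (l.map Prod.fst) (l.map Prod.snd).flatten := by
  intro l
  induction l with
  | nil => intro _; exact der_nil' hs
  | cons e l ih =>
    intro h
    exact der_append (u1 := [e.1]) (h e (by simp)) (ih fun e' he' => h e' (by simp [he']))

/-- The number of productive entries (those whose derived word contains the letter `a`). -/
def pc (l : List (ℕ × List ℕ)) : ℕ := l.countP (fun e => decide (0 ∈ e.2))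

theorem pc_append (l l' : List (ℕ × List ℕ)) : pc (l ++ l') = pc l + pc l' :=
  List.countP_append

theorem pc_cons (e : ℕ × List ℕ) (l : List (ℕ × List ℕ)) :
    pc (e :: l) = pc l + if 0 ∈ e.2 then 1 else 0 := by
  simp [pc, List.countP_cons]

theorem search (r c : ℕ) (tb : Finset (Finset (ℕ × List ℕ)))
    (hc : ∀ P ∈ tb, ∀ e ∈ P, e.2.length ≤ c) :
    ∀ (hs : List (Finset (ℕ × List ℕ))) (l : List (ℕ × List ℕ)), (∀ P ∈ hs, P ∈ tb) →
      Ann hs l → pc l < r → r ≤ (l.map Prod.snd).flatten.count 0 →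
      ∃ hs1 hs2 l', hs = hs1 ++ hs2 ∧ Der hs1 (l.map Prod.fst) (l'.map Prod.fst) ∧ Ann hs2 l' ∧
        (l'.map Prod.snd).flatten = (l.map Prod.snd).flatten ∧ r ≤ pc l' ∧
        ∃ pre m post, l' = pre ++ m ++ post ∧ m.length ≤ c ∧ 2 ≤ pc m := by
  intro hs
  induction hs with
  | nil =>
    intro l _ hl hlt hge
    exfalso
    have key : ∀ l : List (ℕ × List ℕ), Ann [] l → (l.map Prod.snd).flatten.count 0 ≤ pc l := by
      intro l
      induction l with
      | nil => intro _; simp
      | cons e l ih =>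
        intro h
        rw [pc_cons, List.map_cons, List.flatten_cons, List.count_append]
        have h1 := ih fun e' he' => h e' (by simp [he'])
        have h2 : [e.1] = e.2 := h e (by simp)
        have h3 : e.2.count 0 ≤ if 0 ∈ e.2 then 1 else 0 := by
          rw [← h2]
          by_cases h0 : e.1 = 0
          · simp [h0]
          · rw [List.count_eq_zero_of_not_mem (by simpa using fun h => h0 h.symm)]
            exact Nat.zero_le _
        omega
    have := key l hl
    omega
  | cons P hs ih =>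
    intro l hP hl hlt hge
    have hPt : P ∈ tb := hP P (by simp)
    have hex : ∀ e : ℕ × List ℕ, ∃ g : List (ℕ × List ℕ), e ∈ l →
        (e.1, g.map Prod.fst) ∈ P ∧ (g.map Prod.snd).flatten = e.2 ∧ Ann hs g := by
      intro e
      by_cases he : e ∈ l
      · obtain ⟨u', hp, hd⟩ := hl e he
        cases hp with
        | cons hr hp' =>
          cases hp'
          rw [List.append_nil] at hd
          obtain ⟨g, hg1, hg2, hg3⟩ := ann_exists hd
          exact ⟨g, fun _ => ⟨by rw [hg1]; exact hr, hg2, hg3⟩⟩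
      · exact ⟨[], fun h => absurd h he⟩
    choose g hg using hex
    have hpar : ∀ l' : List (ℕ × List ℕ), (∀ e ∈ l', e ∈ l) →
        Par P (l'.map Prod.fst) ((l'.flatMap g).map Prod.fst) := by
      intro l'
      induction l' with
      | nil => intro _; exact Par.nil
      | cons e l' ih' =>
        intro h
        rw [List.flatMap_cons, List.map_append, List.map_cons]
        exact Par.cons (hg e (h e (by simp))).1 (ih' fun e' he' => h e' (by simp [he']))
    have hflat : ∀ l' : List (ℕ × List ℕ), (∀ e ∈ l', e ∈ l) →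
        ((l'.flatMap g).map Prod.snd).flatten = (l'.map Prod.snd).flatten := by
      intro l'
      induction l' with
      | nil => intro _; rfl
      | cons e l' ih' =>
        intro h
        rw [List.flatMap_cons, List.map_append, List.flatten_append, List.map_cons,
          List.flatten_cons, (hg e (h e (by simp))).2.1, ih' fun e' he' => h e' (by simp [he'])]
    have hann : Ann hs (l.flatMap g) := by
      intro e he
      obtain ⟨e', he', he''⟩ := List.mem_flatMap.1 he
      exact (hg e' he').2.2 e he''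
    have hp1 := hpar l fun _ h => h
    have hf1 := hflat l fun _ h => h
    rcases Nat.lt_or_ge (pc (l.flatMap g)) r with hlt' | hge'
    · obtain ⟨hs1, hs2, l', e1, d1, a1, f1, r1, hm⟩ := ih (l.flatMap g)
        (fun Q hQ => hP Q (by simp [hQ])) hann hlt' (by rw [hf1]; exact hge)
      exact ⟨P :: hs1, hs2, l', by rw [e1]; rfl, ⟨_, hp1, d1⟩, a1, by rw [f1, hf1], r1, hm⟩
    · refine ⟨[P], hs, l.flatMap g, rfl, ⟨_, hp1, rfl⟩, hann, hf1, hge', ?_⟩
      have hex2 : ∃ e ∈ l, 2 ≤ pc (g e) := by
        by_contra hcon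
        push Not at hcon
        have key : ∀ l' : List (ℕ × List ℕ), (∀ e ∈ l', e ∈ l) →
            pc (l'.flatMap g) ≤ pc l' := by
          intro l'
          induction l' with
          | nil => intro _; simp
          | cons e l' ih' =>
            intro h
            rw [List.flatMap_cons, pc_append, pc_cons]
            have h1 := ih' fun e' he' => h e' (by simp [he'])
            have h2 := hcon e (h e (by simp))
            have h3 : pc (g e) ≤ if 0 ∈ e.2 then 1 else 0 := by
              by_cases h0 : 0 ∈ e.2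
              · rw [if_pos h0]; omega
              · rw [if_neg h0, nonpos_iff_eq_zero, pc, List.countP_eq_zero]
                intro e' he' h4
                apply h0
                rw [← (hg e (h e (by simp))).2.1, List.mem_flatten]
                exact ⟨e'.2, List.mem_map_of_mem he', by simpa using h4⟩
            omega
        have := key l fun _ h => h
        omega
      obtain ⟨e, he, h2⟩ := hex2
      obtain ⟨l1, l2, rfl⟩ := List.append_of_mem he
      refine ⟨l1.flatMap g, g e, l2.flatMap g, ?_, ?_, h2⟩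
      · rw [List.flatMap_append, List.flatMap_cons, List.append_assoc]
      · have := hc P hPt _ (hg e he).1
        simpa using this

theorem blk_get (k : ℕ) : ∀ (m i : ℕ), i < (blk 0 1 k m).length →
    (blk 0 1 k m)[i]? = some (if i % (k + 1) = 0 then 0 else 1) := by
  intro m
  induction m with
  | zero => intro i hi; simp [blk_zero] at hi
  | succ m ih =>
    intro i hi
    rw [blk_succ] at hi ⊢
    rcases Nat.lt_or_ge i (k + 1) with h | h
    · rw [List.getElem?_append_left (by simpa using h)]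
      rcases i with _ | i
      · simp
      · rw [List.getElem?_cons_succ, List.getElem?_replicate, if_pos (by omega),
          Nat.mod_eq_of_lt h, if_neg (by omega)]
    · rw [List.getElem?_append_right (by simpa using h)]
      have hl : (0 :: List.replicate k 1 : List ℕ).length = k + 1 := by simp
      rw [hl]
      rw [List.length_append, hl] at hi
      rw [ih (i - (k + 1)) (by omega), ← Nat.mod_eq_sub_mod h]

theorem factor_len (k m : ℕ) (p y s : List ℕ) (h : blk 0 1 k m = p ++ y ++ s)
    (h2 : 2 ≤ y.count 0) : k + 2 ≤ y.length := by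
  rw [← List.duplicate_iff_two_le_count, List.duplicate_iff_exists_distinct_get] at h2
  obtain ⟨i, j, hij, hi, hj⟩ := h2
  have key : ∀ t : Fin y.length, 0 = y.get t → (p.length + t) % (k + 1) = 0 := by
    intro t ht
    have hlt : p.length + t < (blk 0 1 k m).length := by
      rw [h]; have := t.2; simp; omega
    have h1 := blk_get k m (p.length + t) hlt
    have h3 : (blk 0 1 k m)[p.length + (t : ℕ)]? = some (y.get t) := by
      rw [h, List.append_assoc, List.getElem?_append_right (by omega),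
        List.getElem?_append_left (by have := t.2; omega)]
      simp
    rw [h3] at h1
    by_contra hne
    rw [if_neg hne, ← ht] at h1
    simp at h1
  have k1 := key i hi
  have k2 := key j hj
  have hij' : (i : ℕ) < j := hij
  have hj2 := j.2
  have hd : (k + 1) ∣ (p.length + j) - (p.length + i) :=
    Nat.dvd_sub (Nat.dvd_of_mod_eq_zero k2) (Nat.dvd_of_mod_eq_zero k1)
  have := Nat.le_of_dvd (by omega) hd
  omega

theorem count_blk (k m : ℕ) : (blk 0 1 k m).count 0 = m := by
  induction m with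
  | zero => rfl
  | succ m ih =>
    rw [blk_succ, List.count_append, ih, List.count_cons_self,
      List.count_eq_zero_of_not_mem]
    · omega
    · intro h
      have := List.eq_of_mem_replicate h
      omega

/-- `τ` rewrites all symbols of `A` into terminal words with `a`, and all symbols of `B` into
terminal words without `a`. -/
def Tail (G : ET0L) (A B : Finset ℕ) (K : ℕ) (τ : List (Finset (ℕ × List ℕ))) : Prop :=
  (∀ P ∈ τ, P ∈ G.tables) ∧
  (∀ X ∈ A, ∃ z, Der τ [X] z ∧ 0 ∈ z ∧ (∀ s ∈ z, s ∈ G.T) ∧ z.length ≤ K) ∧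
  (∀ X ∈ B, ∃ z, Der τ [X] z ∧ 0 ∉ z ∧ (∀ s ∈ z, s ∈ G.T) ∧ z.length ≤ K)

theorem tail_mono {G : ET0L} {A B : Finset ℕ} {K K' : ℕ} {τ : List (Finset (ℕ × List ℕ))}
    (h : Tail G A B K τ) (hK : K ≤ K') : Tail G A B K' τ := by
  obtain ⟨h1, h2, h3⟩ := h
  refine ⟨h1, fun X hX => ?_, fun X hX => ?_⟩
  · obtain ⟨z, a, b, c, d⟩ := h2 X hX
    exact ⟨z, a, b, c, d.trans hK⟩
  · obtain ⟨z, a, b, c, d⟩ := h3 X hX
    exact ⟨z, a, b, c, d.trans hK⟩

theorem not_ET0L (G : ET0L) : G.lang ≠ LL := by
  classical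
  intro hL
  -- a bound on the lengths of right-hand sides
  obtain ⟨c, hc⟩ : ∃ c : ℕ, ∀ P ∈ G.tables, ∀ e ∈ P, e.2.length ≤ c := by
    refine ⟨G.tables.sup (fun P => P.sup (fun e => e.2.length)), fun P hP e he => ?_⟩
    exact (Finset.le_sup (f := fun e : ℕ × List ℕ => e.2.length) he).trans
      (Finset.le_sup (f := fun P : Finset (ℕ × List ℕ) => P.sup (fun e => e.2.length)) hP)
  -- a uniform bound for the tails of all realizable types
  obtain ⟨K, hK⟩ : ∃ K : ℕ, ∀ A ∈ G.V.powerset, ∀ B ∈ G.V.powerset,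
      (∃ K' τ, Tail G A B K' τ) → ∃ τ, Tail G A B K τ := by
    have hex : ∀ AB : Finset ℕ × Finset ℕ, ∃ K : ℕ, (∃ K' τ, Tail G AB.1 AB.2 K' τ) →
        ∃ τ, Tail G AB.1 AB.2 K τ := by
      intro AB
      by_cases h : ∃ K' τ, Tail G AB.1 AB.2 K' τ
      · obtain ⟨K', τ, hτ⟩ := h
        exact ⟨K', fun _ => ⟨τ, hτ⟩⟩
      · exact ⟨0, fun h' => absurd h' h⟩
    choose F hF using hex
    refine ⟨(G.V.powerset ×ˢ G.V.powerset).sup F, fun A hA B hB h => ?_⟩
    obtain ⟨τ, hτ⟩ := hF (A, B) h
    exact ⟨τ, tail_mono hτ (Finset.le_sup (f := F) (Finset.mem_product.2 ⟨hA, hB⟩))⟩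
  set r := c * K + G.w.length + 1 with hr
  -- a derivation of the word `(abʳ)ʳ`
  have hx : blk 0 1 r r ∈ G.lang := by
    rw [hL]; exact ⟨r, r, by omega, le_rfl, rfl⟩
  obtain ⟨hxT, hxd⟩ := hx
  obtain ⟨hs, hhs, hder⟩ := der_of_steps G hxd
  obtain ⟨l, hl1, hl2, hl3⟩ := ann_exists hder
  have hpcl : pc l < r := by
    have h1 : pc l ≤ l.length := List.countP_le_length
    have h2 : l.length = G.w.length := by rw [← hl1, List.length_map]
    omega
  obtain ⟨hs1, hs2, l', he, hd, ha, hf, hpc, pre, m, post, hl', hml, hpm⟩ :=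
    search r c G.tables hc hs l hhs hl3 hpcl (by rw [hl2, count_blk])
  rw [hl1] at hd
  rw [hl2] at hf
  have hs1t : ∀ P ∈ hs1, P ∈ G.tables := fun P hP => hhs P (by rw [he]; simp [hP])
  have hs2t : ∀ P ∈ hs2, P ∈ G.tables := fun P hP => hhs P (by rw [he]; simp [hP])
  -- all symbols of the intermediate word are in `V`
  have hV : ∀ (hs : List (Finset (ℕ × List ℕ))) (u v : List ℕ), (∀ P ∈ hs, P ∈ G.tables) →
      (∀ s ∈ u, s ∈ G.V) → Der hs u v → ∀ s ∈ v, s ∈ G.V := by
    intro hs
    induction hs with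
    | nil =>
      intro u v _ hu h
      have e : u = v := h
      subst e
      exact hu
    | cons P hs ih =>
      rintro u v hP hu ⟨u', hp, hd⟩
      refine ih u' v (fun Q hQ => hP Q (by simp [hQ])) ?_ hd
      have hPt := hP P (by simp)
      clear hd hu
      induction hp with
      | nil => simp
      | cons hr' _ ih' =>
        intro s hs
        rcases List.mem_append.1 hs with h | h
        · exact (G.rules P hPt _ hr').2 s h
        · exact ih' s h
  have hVl : ∀ s ∈ l'.map Prod.fst, s ∈ G.V := hV hs1 _ _ hs1t G.w_mem hd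
  -- the type of the intermediate word
  set A : Finset ℕ := ((l'.filter (fun e => decide (0 ∈ e.2))).map Prod.fst).toFinset with hA
  set B : Finset ℕ := ((l'.filter (fun e => decide (0 ∉ e.2))).map Prod.fst).toFinset with hB
  have hAmem : ∀ X, X ∈ A ↔ ∃ e ∈ l', 0 ∈ e.2 ∧ e.1 = X := by
    intro X; simp [hA, and_assoc]
  have hBmem : ∀ X, X ∈ B ↔ ∃ e ∈ l', 0 ∉ e.2 ∧ e.1 = X := by
    intro X; simp [hB, and_assoc]
  have hsndT : ∀ e ∈ l', ∀ s ∈ e.2, s ∈ G.T := by
    intro e he' s hs
    apply hxT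
    rw [← hf, List.mem_flatten]
    exact ⟨e.2, List.mem_map_of_mem he', hs⟩
  have hsndlen : ∀ e ∈ l', e.2.length ≤ (blk 0 1 r r).length := by
    intro e he'
    rw [← hf]
    exact List.Sublist.length_le (List.sublist_flatten_of_mem (List.mem_map_of_mem he'))
  obtain ⟨τ, hτ1, hτ2, hτ3⟩ := hK A
    (by
      rw [Finset.mem_powerset]
      intro X hX
      obtain ⟨e, he', _, rfl⟩ := (hAmem X).1 hX
      exact hVl _ (List.mem_map_of_mem he'))
    B
    (by
      rw [Finset.mem_powerset]
      intro X hX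
      obtain ⟨e, he', _, rfl⟩ := (hBmem X).1 hX
      exact hVl _ (List.mem_map_of_mem he'))
    ⟨(blk 0 1 r r).length, hs2, hs2t, by
      intro X hX
      obtain ⟨e, he', h0, rfl⟩ := (hAmem X).1 hX
      exact ⟨e.2, ha e he', h0, hsndT e he', hsndlen e he'⟩, by
      intro X hX
      obtain ⟨e, he', h0, rfl⟩ := (hBmem X).1 hX
      exact ⟨e.2, ha e he', h0, hsndT e he', hsndlen e he'⟩⟩
  -- choose the replacement words
  have hz : ∀ e : ℕ × List ℕ, ∃ z : List ℕ, e ∈ l' →
      Der τ [e.1] z ∧ (0 ∈ z ↔ 0 ∈ e.2) ∧ (∀ s ∈ z, s ∈ G.T) ∧ z.length ≤ K := by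
    intro e
    by_cases he' : e ∈ l'
    · by_cases h0 : 0 ∈ e.2
      · obtain ⟨z, a1, a2, a3, a4⟩ := hτ2 e.1 ((hAmem _).2 ⟨e, he', h0, rfl⟩)
        exact ⟨z, fun _ => ⟨a1, ⟨fun _ => h0, fun _ => a2⟩, a3, a4⟩⟩
      · obtain ⟨z, a1, a2, a3, a4⟩ := hτ3 e.1 ((hBmem _).2 ⟨e, he', h0, rfl⟩)
        exact ⟨z, fun _ => ⟨a1, ⟨fun h => absurd h a2, fun h => absurd h h0⟩, a3, a4⟩⟩
    · exact ⟨[], fun h => absurd h he'⟩
  choose z hz using hz
  set f : ℕ × List ℕ → ℕ × List ℕ := fun e => (e.1, z e) with hfdef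
  have hmapfst : (l'.map f).map Prod.fst = l'.map Prod.fst := by
    rw [List.map_map]; rfl
  have hann' : Ann τ (l'.map f) := by
    intro e he'
    obtain ⟨e', he'', rfl⟩ := List.mem_map.1 he'
    exact (hz e' he'').1
  have hd2 := ann_der hann'
  rw [hmapfst] at hd2
  set x' := ((l'.map f).map Prod.snd).flatten with hx'
  have hpc' : ∀ l'' : List (ℕ × List ℕ), (∀ e ∈ l'', e ∈ l') →
      pc l'' ≤ ((l''.map f).map Prod.snd).flatten.count 0 := by
    intro l''
    induction l'' with
    | nil => intro _; simp [pc]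
    | cons e l'' ih =>
      intro h
      rw [pc_cons, List.map_cons, List.map_cons, List.flatten_cons, List.count_append]
      have h1 := ih fun e' he' => h e' (by simp [he'])
      have h2 : (if 0 ∈ e.2 then 1 else 0) ≤ (z e).count 0 := by
        by_cases h0 : 0 ∈ e.2
        · rw [if_pos h0]
          exact List.count_pos_iff.2 (((hz e (h e (by simp))).2.1).2 h0)
        · rw [if_neg h0]; exact Nat.zero_le _
      have h3 : (f e).2 = z e := rfl
      rw [h3]
      omega
  have hcount : r ≤ x'.count 0 := hpc.trans (hpc' l' fun _ h => h)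
  have hx'ne : x' ≠ [] := by
    intro h
    rw [h, List.count_nil] at hcount
    omega
  have hmemx : x' ∈ G.lang := by
    refine ⟨?_, ?_⟩
    · intro s hs
      rw [hx', List.mem_flatten] at hs
      obtain ⟨y, hy, hsy⟩ := hs
      obtain ⟨e, he', rfl⟩ := List.mem_map.1 hy
      obtain ⟨e', he'', rfl⟩ := List.mem_map.1 he'
      exact (hz e' he'').2.2.1 s hsy
    · refine steps_of_der G (hs := hs1 ++ τ) ?_ hx'ne (der_trans hd hd2)
      intro P hP
      rcases List.mem_append.1 hP with h | h
      · exact hs1t P h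
      · exact hτ1 P h
  rw [hL] at hmemx
  obtain ⟨m', n', hm1, hmn, hxe⟩ := hmemx
  -- the short factor with two letters `a`
  set y := ((m.map f).map Prod.snd).flatten with hy
  have hsubm : ∀ e ∈ m, e ∈ l' := by
    intro e he'
    rw [hl']
    simp [he']
  have hylen : y.length ≤ c * K := by
    have key : ∀ l'' : List (ℕ × List ℕ), (∀ e ∈ l'', e ∈ l') →
        ((l''.map f).map Prod.snd).flatten.length ≤ l''.length * K := by
      intro l''
      induction l'' with
      | nil => intro _; simp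
      | cons e l'' ih =>
        intro h
        rw [List.map_cons, List.map_cons, List.flatten_cons, List.length_append,
          List.length_cons]
        have h1 := ih fun e' he' => h e' (by simp [he'])
        have h2 : (f e).2.length ≤ K := (hz e (h e (by simp))).2.2.2
        have h3 : (l''.length + 1) * K = l''.length * K + K := by ring
        omega
    exact (key m hsubm).trans (Nat.mul_le_mul_right _ hml)
  have hycount : 2 ≤ y.count 0 := hpm.trans (hpc' m hsubm)
  have hfac : blk 0 1 n' m' = ((pre.map f).map Prod.snd).flatten ++ y ++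
      ((post.map f).map Prod.snd).flatten := by
    rw [← hxe, hx', hl']
    simp [hy]
  have h1 := factor_len n' m' _ _ _ hfac hycount
  have h2 : x'.count 0 = m' := by rw [hxe, count_blk]
  omega

end NotET0L

/-! ### The left forbidding grammar -/

/-- The grammar: `a = 0`, `b = 1`, `S = 2`, `W = 3`, `U = 4`, `M = 5`, `B = 6`. -/
def GG : LFE0L where
  V := {0, 1, 2, 3, 4, 5, 6}
  T := {0, 1}
  P := {(2, [2, 3], ∅), (2, [3], ∅), (3, [3], {4, 5, 6}), (3, [4], {2, 4, 5, 6}),
    (4, [4, 6], {3}), (4, [5, 6], {3, 4}), (5, [5, 6], ∅), (6, [6], ∅), (5, [0], ∅),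
    (6, [1], ∅)}
  w := [2]
  T_sub := by decide
  rules := by decide
  w_ne := by decide
  w_mem := by decide

theorem GG_prop : GG.Propagating := by
  unfold LFE0L.Propagating
  decide

theorem lf_append {P : Finset (ℕ × List ℕ × Finset ℕ)} : ∀ {u1 left u2 v1 v2 : List ℕ},
    LFRew P left u1 v1 → LFRew P (left ++ u1) u2 v2 →
    LFRew P left (u1 ++ u2) (v1 ++ v2) := by
  intro u1
  induction u1 with
  | nil =>
    intro left u2 v1 v2 h1 h2
    cases h1
    simpa using h2
  | cons X u1 ih =>
    intro left u2 v1 v2 h1 h2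
    cases h1 with
    | cons hr hW h' =>
      rw [List.cons_append, List.append_assoc]
      refine LFRew.cons hr hW (ih h' ?_)
      simpa using h2

theorem lf_split {P : Finset (ℕ × List ℕ × Finset ℕ)} : ∀ {u1 left u2 v : List ℕ},
    LFRew P left (u1 ++ u2) v →
    ∃ v1 v2, v = v1 ++ v2 ∧ LFRew P left u1 v1 ∧ LFRew P (left ++ u1) u2 v2 := by
  intro u1
  induction u1 with
  | nil =>
    intro left u2 v h
    exact ⟨[], v, rfl, LFRew.nil left, by simpa using h⟩
  | cons X u1 ih =>
    intro left u2 v h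
    rw [List.cons_append] at h
    cases h with
    | cons hr hW h' =>
      obtain ⟨v1, v2, rfl, h1, h2⟩ := ih h'
      refine ⟨_ ++ v1, v2, by rw [List.append_assoc], LFRew.cons hr hW h1, ?_⟩
      simpa using h2

theorem lf_mem {P : Finset (ℕ × List ℕ × Finset ℕ)} {left u1 u2 v : List ℕ} {X : ℕ}
    (h : LFRew P left (u1 ++ X :: u2) v) :
    ∃ y W, (X, y, W) ∈ P ∧ ∀ Z ∈ left ++ u1, Z ∉ W := by
  obtain ⟨v1, v2, -, -, h2⟩ := lf_split h
  cases h2 with
  | cons hr hW _ => exact ⟨_, _, hr, hW⟩

theorem lf_one {P : Finset (ℕ × List ℕ × Finset ℕ)} {left v : List ℕ} {X : ℕ}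
    (h : LFRew P left [X] v) : ∃ W, (X, v, W) ∈ P ∧ ∀ Z ∈ left, Z ∉ W := by
  cases h with
  | cons hr hW h' =>
    cases h'
    rw [List.append_nil]
    exact ⟨_, hr, hW⟩

theorem lf_of_one {P : Finset (ℕ × List ℕ × Finset ℕ)} {left v : List ℕ} {X : ℕ} {W : Finset ℕ}
    (hr : (X, v, W) ∈ P) (hW : ∀ Z ∈ left, Z ∉ W) : LFRew P left [X] v := by
  have := LFRew.cons hr hW (LFRew.nil (P := P) (left ++ [X]))
  rwa [List.append_nil] at this

/-- The rules of the grammar with left-hand side `X`. -/
theorem rules_GG {X : ℕ} {y : List ℕ} {W : Finset ℕ} (h : (X, y, W) ∈ GG.P) :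
    (X = 2 ∧ y = [2, 3] ∧ W = ∅) ∨ (X = 2 ∧ y = [3] ∧ W = ∅) ∨
    (X = 3 ∧ y = [3] ∧ W = {4, 5, 6}) ∨ (X = 3 ∧ y = [4] ∧ W = {2, 4, 5, 6}) ∨
    (X = 4 ∧ y = [4, 6] ∧ W = {3}) ∨ (X = 4 ∧ y = [5, 6] ∧ W = {3, 4}) ∨
    (X = 5 ∧ y = [5, 6] ∧ W = ∅) ∨ (X = 6 ∧ y = [6] ∧ W = ∅) ∨
    (X = 5 ∧ y = [0] ∧ W = ∅) ∨ (X = 6 ∧ y = [1] ∧ W = ∅) := by
  simp only [GG, Finset.mem_insert, Finset.mem_singleton, Prod.mk.injEq] at h
  exact h

/-- Symbols that are terminals. -/
def IsT (x : ℕ) : Prop := x = 0 ∨ x = 1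

theorem r2 {y : List ℕ} {W : Finset ℕ} (h : (2, y, W) ∈ GG.P) :
    (y = [2, 3] ∧ W = ∅) ∨ (y = [3] ∧ W = ∅) := by
  simpa using rules_GG h

theorem r3 {y : List ℕ} {W : Finset ℕ} (h : (3, y, W) ∈ GG.P) :
    (y = [3] ∧ W = {4, 5, 6}) ∨ (y = [4] ∧ W = {2, 4, 5, 6}) := by
  simpa using rules_GG h

theorem r4 {y : List ℕ} {W : Finset ℕ} (h : (4, y, W) ∈ GG.P) :
    (y = [4, 6] ∧ W = {3}) ∨ (y = [5, 6] ∧ W = {3, 4}) := by
  simpa using rules_GG h

theorem r5 {y : List ℕ} {W : Finset ℕ} (h : (5, y, W) ∈ GG.P) :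
    (y = [5, 6] ∧ W = ∅) ∨ (y = [0] ∧ W = ∅) := by
  simpa using rules_GG h

theorem r6 {y : List ℕ} {W : Finset ℕ} (h : (6, y, W) ∈ GG.P) :
    (y = [6] ∧ W = ∅) ∨ (y = [1] ∧ W = ∅) := by
  simpa using rules_GG h

theorem r01 {X : ℕ} {y : List ℕ} {W : Finset ℕ} (hX : IsT X) (h : (X, y, W) ∈ GG.P) : False := by
  have := rules_GG h
  unfold IsT at hX
  omega

theorem rewW {left : List ℕ} (h2 : 2 ∈ left) : ∀ {j : ℕ} {v : List ℕ},
    LFRew GG.P left (List.replicate j 3) v → v = List.replicate j 3 := by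
  intro j
  induction j generalizing left with
  | zero =>
    intro v h
    cases h
    rfl
  | succ j ih =>
    intro v h
    rw [List.replicate_succ] at h
    cases h with
    | cons hr hW h' =>
      rcases r3 hr with ⟨rfl, rfl⟩ | ⟨rfl, rfl⟩
      · rw [ih (by simp [h2]) h', List.replicate_succ]; rfl
      · exact absurd (hW 2 h2) (by simp)

theorem rewW' {left : List ℕ} : ∀ {j : ℕ} {v : List ℕ},
    LFRew GG.P left (List.replicate j 3) v → v.length = j ∧ ∀ x ∈ v, x = 3 ∨ x = 4 := by
  intro j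
  induction j generalizing left with
  | zero =>
    intro v h
    cases h
    simp
  | succ j ih =>
    intro v h
    rw [List.replicate_succ] at h
    cases h with
    | cons hr hW h' =>
      obtain ⟨h1, h2⟩ := ih h'
      rcases r3 hr with ⟨rfl, -⟩ | ⟨rfl, -⟩
      · refine ⟨by simp [h1], ?_⟩
        intro x hx
        rcases List.mem_append.1 hx with hx | hx
        · left; simpa using hx
        · exact h2 x hx
      · refine ⟨by simp [h1], ?_⟩
        intro x hx
        rcases List.mem_append.1 hx with hx | hx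
        · right; simpa using hx
        · exact h2 x hx

/-- Rewriting `Bᵏ` without creating terminals. -/
theorem rewB {left : List ℕ} : ∀ {k : ℕ} {v : List ℕ}, (∀ x ∈ v, ¬ IsT x) →
    LFRew GG.P left (List.replicate k 6) v → v = List.replicate k 6 := by
  intro k
  induction k generalizing left with
  | zero =>
    intro v _ h
    cases h
    rfl
  | succ k ih =>
    intro v hv h
    rw [List.replicate_succ] at h
    cases h with
    | cons hr hW h' =>
      rcases r6 hr with ⟨rfl, -⟩ | ⟨rfl, -⟩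
      · rw [ih (fun x hx => hv x (by simp [hx])) h', List.replicate_succ]; rfl
      · exact absurd (Or.inr rfl) (hv 1 (by simp))

/-- Rewriting `Bᵏ` into a terminal word. -/
theorem rewB' {left : List ℕ} : ∀ {k : ℕ} {v : List ℕ}, (∀ x ∈ v, IsT x) →
    LFRew GG.P left (List.replicate k 6) v → v = List.replicate k 1 := by
  intro k
  induction k generalizing left with
  | zero =>
    intro v _ h
    cases h
    rfl
  | succ k ih =>
    intro v hv h
    rw [List.replicate_succ] at h
    cases h with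
    | cons hr hW h' =>
      rcases r6 hr with ⟨rfl, -⟩ | ⟨rfl, -⟩
      · have := hv 6 (by simp)
        unfold IsT at this
        omega
      · rw [ih (fun x hx => hv x (by simp [hx])) h', List.replicate_succ]; rfl

theorem rewM {left : List ℕ} {k : ℕ} : ∀ {p : ℕ} {v : List ℕ}, (∀ x ∈ v, ¬ IsT x) →
    LFRew GG.P left (blk 5 6 k p) v → v = blk 5 6 (k + 1) p := by
  intro p
  induction p generalizing left with
  | zero =>
    intro v _ h
    cases h
    rfl
  | succ p ih =>
    intro v hv h
    rw [blk_succ] at h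
    obtain ⟨v1, v2, rfl, h1, h2⟩ := lf_split h
    rw [ih (fun x hx => hv x (by simp [hx])) h2, blk_succ]
    cases h1 with
    | cons hr hW h' =>
      rcases r5 hr with ⟨rfl, -⟩ | ⟨rfl, -⟩
      · rw [rewB (fun x hx => hv x (by simp [hx])) h', List.replicate_succ]; rfl
      · exact absurd (Or.inl rfl) (hv 0 (by simp))

theorem rewM' {left : List ℕ} {k : ℕ} : ∀ {p : ℕ} {v : List ℕ}, (∀ x ∈ v, IsT x) →
    LFRew GG.P left (blk 5 6 k p) v → v = blk 0 1 k p := by
  intro p
  induction p generalizing left with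
  | zero =>
    intro v _ h
    cases h
    rfl
  | succ p ih =>
    intro v hv h
    rw [blk_succ] at h
    obtain ⟨v1, v2, rfl, h1, h2⟩ := lf_split h
    rw [ih (fun x hx => hv x (by simp [hx])) h2, blk_succ]
    cases h1 with
    | cons hr hW h' =>
      rcases r5 hr with ⟨rfl, -⟩ | ⟨rfl, -⟩
      · have := hv 5 (by simp)
        unfold IsT at this
        omega
      · rw [rewB' (fun x hx => hv x (by simp [hx])) h']; rfl

theorem rewU1 {left : List ℕ} {k : ℕ} {v : List ℕ} (hv : ∀ x ∈ v, ¬ IsT x)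
    (h : LFRew GG.P left (4 :: List.replicate k 6) v) :
    v = 4 :: List.replicate (k + 1) 6 ∨ (4 ∉ left ∧ v = 5 :: List.replicate (k + 1) 6) := by
  cases h with
  | cons hr hW h' =>
    rcases r4 hr with ⟨rfl, rfl⟩ | ⟨rfl, rfl⟩
    · left
      rw [rewB (fun x hx => hv x (by simp [hx])) h', List.replicate_succ]; rfl
    · right
      refine ⟨fun h4 => hW 4 h4 (by simp), ?_⟩
      rw [rewB (fun x hx => hv x (by simp [hx])) h', List.replicate_succ]; rfl

theorem rewU2 {left : List ℕ} {k : ℕ} (h4 : 4 ∈ left) : ∀ {q : ℕ} {v : List ℕ},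
    (∀ x ∈ v, ¬ IsT x) → LFRew GG.P left (blk 4 6 k q) v → v = blk 4 6 (k + 1) q := by
  intro q
  induction q generalizing left with
  | zero =>
    intro v _ h
    cases h
    rfl
  | succ q ih =>
    intro v hv h
    rw [blk_succ] at h
    obtain ⟨v1, v2, rfl, h1, h2⟩ := lf_split h
    rw [ih (by simp [h4]) (fun x hx => hv x (by simp [hx])) h2, blk_succ]
    rcases rewU1 (fun x hx => hv x (by simp [hx])) h1 with rfl | ⟨hn, -⟩
    · rfl
    · exact absurd h4 hn

theorem rewU {left : List ℕ} {k q : ℕ} {v : List ℕ} (hv : ∀ x ∈ v, ¬ IsT x)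
    (h : LFRew GG.P left (blk 4 6 k (q + 1)) v) :
    v = blk 4 6 (k + 1) (q + 1) ∨ v = (5 :: List.replicate (k + 1) 6) ++ blk 4 6 (k + 1) q := by
  rw [blk_succ] at h
  obtain ⟨v1, v2, rfl, h1, h2⟩ := lf_split h
  rw [rewU2 (by simp) (fun x hx => hv x (by simp [hx])) h2, blk_succ]
  rcases rewU1 (fun x hx => hv x (by simp [hx])) h1 with rfl | ⟨-, rfl⟩
  · exact Or.inl rfl
  · exact Or.inr rfl

/-- The invariant of the derivations of the grammar. -/
def Inv (w : List ℕ) : Prop :=
  (∃ j, w = 2 :: List.replicate j 3) ∨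
  (w ≠ [] ∧ ∀ x ∈ w, x = 3 ∨ x = 4) ∨
  (∃ p q k, 1 ≤ p + q ∧ p ≤ k ∧ w = blk 5 6 k p ++ blk 4 6 k q) ∨
  ((∃ x ∈ w, IsT x) ∧ ((∀ x ∈ w, IsT x) → w ∈ LL))

theorem inv_blocks {p q k : ℕ} (hpq : 1 ≤ p + q) (hpk : p ≤ k) {v : List ℕ}
    (h : LFRew GG.P [] (blk 5 6 k p ++ blk 4 6 k q) v) : Inv v := by
  by_cases hT : ∃ x ∈ v, IsT x
  · refine Or.inr (Or.inr (Or.inr ⟨hT, fun hall => ?_⟩))
    obtain ⟨v1, v2, rfl, h1, h2⟩ := lf_split h
    rcases q with _ | q
    · cases h2
      rw [List.append_nil] at hall ⊢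
      rw [rewM' hall h1]
      exact ⟨p, k, by omega, hpk, rfl⟩
    · exfalso
      rw [blk_succ] at h2
      obtain ⟨v3, v4, rfl, h3, h4⟩ := lf_split h2
      cases h3 with
      | cons hr hW h' =>
        rcases r4 hr with ⟨rfl, -⟩ | ⟨rfl, -⟩
        · have := hall 4 (by simp)
          unfold IsT at this
          omega
        · have := hall 5 (by simp)
          unfold IsT at this
          omega
  · push Not at hT
    refine Or.inr (Or.inr (Or.inl ?_))
    obtain ⟨v1, v2, rfl, h1, h2⟩ := lf_split h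
    rw [rewM (fun x hx => hT x (by simp [hx])) h1]
    rcases q with _ | q
    · cases h2
      exact ⟨p, 0, k + 1, by omega, by omega, rfl⟩
    · rcases rewU (fun x hx => hT x (by simp [hx])) h2 with rfl | rfl
      · exact ⟨p, q + 1, k + 1, by omega, by omega, rfl⟩
      · refine ⟨p + 1, q, k + 1, by omega, by omega, ?_⟩
        rw [blk_succ', List.append_assoc]

theorem inv_step {w w' : List ℕ} (hw : Inv w) (h : GG.Step w w') : Inv w' := by
  obtain ⟨hne, h⟩ := h
  rcases hw with ⟨j, rfl⟩ | ⟨-, hw⟩ | ⟨p, q, k, hpq, hpk, rfl⟩ | ⟨⟨x, hx, hxT⟩, -⟩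
  · cases h with
    | cons hr hW h' =>
      have hv := rewW (by simp) h'
      rcases r2 hr with ⟨rfl, -⟩ | ⟨rfl, -⟩
      · left
        refine ⟨j + 1, ?_⟩
        rw [hv, List.replicate_succ]; rfl
      · right; left
        rw [hv]
        refine ⟨by simp, ?_⟩
        intro x hx
        left
        rcases List.mem_append.1 hx with hx | hx
        · simpa using hx
        · exact List.eq_of_mem_replicate hx
  · by_cases h3 : 3 ∈ w
    · -- all letters are `3`
      have hall : ∀ x ∈ w, x = 3 := by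
        intro x hx
        rcases hw x hx with rfl | rfl
        · rfl
        · exfalso
          obtain ⟨u1, u2, rfl⟩ := List.append_of_mem hx
          obtain ⟨y, W, hr, hW⟩ := lf_mem h
          rw [List.nil_append] at hW
          have h31 : 3 ∉ u1 := by
            intro h31
            have := hW 3 h31
            rcases r4 hr with ⟨-, rfl⟩ | ⟨-, rfl⟩ <;> simp at this
          have h32 : 3 ∈ u2 := by
            rcases List.mem_append.1 h3 with h | h
            · exact absurd h h31
            · rcases List.mem_cons.1 h with h | h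
              · omega
              · exact h
          obtain ⟨u3, u4, rfl⟩ := List.append_of_mem h32
          have h' : LFRew GG.P [] ((u1 ++ 4 :: u3) ++ 3 :: u4) w' := by simpa using h
          obtain ⟨y', W', hr', hW'⟩ := lf_mem h'
          have := hW' 4 (by simp)
          rcases r3 hr' with ⟨-, rfl⟩ | ⟨-, rfl⟩ <;> simp at this
      have hrep : w = List.replicate w.length 3 := List.eq_replicate_iff.2 ⟨rfl, hall⟩
      rw [hrep] at h
      obtain ⟨h1, h2⟩ := rewW' h
      right; left
      refine ⟨?_, h2⟩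
      rintro rfl
      have := List.length_pos_of_ne_nil hne
      simp at h1
      omega
    · have hall : ∀ x ∈ w, x = 4 := by
        intro x hx
        rcases hw x hx with rfl | rfl
        · exact absurd hx h3
        · rfl
      have hrep : w = List.replicate w.length 4 := List.eq_replicate_iff.2 ⟨rfl, hall⟩
      have hblk : ∀ n, List.replicate n 4 = blk 5 6 0 0 ++ blk 4 6 0 n := by
        intro n
        rw [blk_zero, List.nil_append]
        induction n with
        | zero => rfl
        | succ n ih => rw [List.replicate_succ, blk_succ, ih]; rfl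
      rw [hrep, hblk] at h
      refine inv_blocks ?_ le_rfl h
      have := List.length_pos_of_ne_nil hne
      omega
  · exact inv_blocks hpq hpk h
  · exfalso
    obtain ⟨u1, u2, rfl⟩ := List.append_of_mem hx
    obtain ⟨y, W, hr, -⟩ := lf_mem h
    exact r01 hxT hr

theorem inv_reach {w : List ℕ} (h : Relation.ReflTransGen GG.Step [2] w) : Inv w := by
  induction h with
  | refl => exact Or.inl ⟨0, rfl⟩
  | tail _ h2 ih => exact inv_step ih h2

theorem lang_sub : GG.lang ⊆ LL := by
  rintro x ⟨hT, hx⟩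
  have hT' : ∀ s ∈ x, IsT s := by
    intro s hs
    have := hT s hs
    simpa [GG, IsT] using this
  rcases inv_reach hx with ⟨j, rfl⟩ | ⟨hne, hw⟩ | ⟨p, q, k, hpq, hpk, rfl⟩ | ⟨-, h⟩
  · exfalso
    have := hT' 2 (by simp)
    unfold IsT at this
    omega
  · exfalso
    obtain ⟨s, hs⟩ := List.exists_mem_of_ne_nil _ hne
    have h1 := hT' s hs
    have h2 := hw s hs
    unfold IsT at h1
    omega
  · exfalso
    rcases p with _ | p
    · obtain ⟨q, rfl⟩ : ∃ q', q = q' + 1 := ⟨q - 1, by omega⟩
      have := hT' 4 (by rw [blk_succ 4]; simp)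
      unfold IsT at this
      omega
    · have := hT' 5 (by rw [blk_succ 5]; simp)
      unfold IsT at this
      omega
  · exact h hT'

/-! Construction of the derivations. -/

theorem mkW {left : List ℕ} (hl : ∀ Z ∈ left, Z ≠ 4 ∧ Z ≠ 5 ∧ Z ≠ 6) (j : ℕ) :
    LFRew GG.P left (List.replicate j 3) (List.replicate j 3) := by
  induction j generalizing left with
  | zero => exact LFRew.nil left
  | succ j ih =>
    rw [List.replicate_succ]
    refine LFRew.cons (y := [3]) (W := {4, 5, 6}) (by simp [GG]) ?_ (ih ?_)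
    · intro Z hZ
      have := hl Z hZ
      simp
      omega
    · intro Z hZ
      rcases List.mem_append.1 hZ with h | h
      · exact hl Z h
      · have : Z = 3 := by simpa using h
        omega

theorem mkU0 {left : List ℕ} (hl : ∀ Z ∈ left, Z = 3) (j : ℕ) :
    LFRew GG.P left (List.replicate j 3) (List.replicate j 4) := by
  induction j generalizing left with
  | zero => exact LFRew.nil left
  | succ j ih =>
    rw [List.replicate_succ, List.replicate_succ]
    refine LFRew.cons (y := [4]) (W := {2, 4, 5, 6}) (by simp [GG]) ?_ (ih ?_)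
    · intro Z hZ
      have := hl Z hZ
      simp
      omega
    · intro Z hZ
      rcases List.mem_append.1 hZ with h | h
      · exact hl Z h
      · simpa using h

theorem mkB (left : List ℕ) (k : ℕ) :
    LFRew GG.P left (List.replicate k 6) (List.replicate k 6) := by
  induction k generalizing left with
  | zero => exact LFRew.nil left
  | succ k ih =>
    rw [List.replicate_succ]
    exact LFRew.cons (y := [6]) (W := ∅) (by simp [GG]) (by simp) (ih _)

theorem mkB' (left : List ℕ) (k : ℕ) :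
    LFRew GG.P left (List.replicate k 6) (List.replicate k 1) := by
  induction k generalizing left with
  | zero => exact LFRew.nil left
  | succ k ih =>
    rw [List.replicate_succ, List.replicate_succ]
    exact LFRew.cons (y := [1]) (W := ∅) (by simp [GG]) (by simp) (ih _)

theorem mkM (left : List ℕ) (k p : ℕ) :
    LFRew GG.P left (blk 5 6 k p) (blk 5 6 (k + 1) p) := by
  induction p generalizing left with
  | zero => exact LFRew.nil left
  | succ p ih =>
    rw [blk_succ, blk_succ]
    refine lf_append ?_ (ih _)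
    rw [List.replicate_succ]
    exact LFRew.cons (y := [5, 6]) (W := ∅) (by simp [GG]) (by simp) (mkB _ _)

theorem mkM' (left : List ℕ) (k p : ℕ) :
    LFRew GG.P left (blk 5 6 k p) (blk 0 1 k p) := by
  induction p generalizing left with
  | zero => exact LFRew.nil left
  | succ p ih =>
    rw [blk_succ, blk_succ]
    refine lf_append ?_ (ih _)
    exact LFRew.cons (y := [0]) (W := ∅) (by simp [GG]) (by simp) (mkB' _ _)

theorem mkU {left : List ℕ} (hl : 3 ∉ left) (k q : ℕ) :
    LFRew GG.P left (blk 4 6 k q) (blk 4 6 (k + 1) q) := by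
  induction q generalizing left with
  | zero => exact LFRew.nil left
  | succ q ih =>
    rw [blk_succ, blk_succ]
    refine lf_append ?_ (ih ?_)
    · rw [List.replicate_succ]
      refine LFRew.cons (y := [4, 6]) (W := {3}) (by simp [GG]) ?_ (mkB _ _)
      intro Z hZ h
      rw [Finset.mem_singleton] at h
      subst h
      exact hl hZ
    · intro h
      rcases List.mem_append.1 h with h | h
      · exact hl h
      · rcases List.mem_cons.1 h with h | h
        · omega
        · have := List.eq_of_mem_replicate h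
          omega

theorem mem_blk {X Y k m s : ℕ} (h : s ∈ blk X Y k m) : s = X ∨ s = Y := by
  rw [blk, List.mem_flatten] at h
  obtain ⟨l, hl, hs⟩ := h
  rw [List.eq_of_mem_replicate hl] at hs
  rcases List.mem_cons.1 hs with h | h
  · exact Or.inl h
  · exact Or.inr (List.eq_of_mem_replicate h)

theorem mkUM (k p q : ℕ) :
    LFRew GG.P [] (blk 5 6 k p ++ blk 4 6 k (q + 1))
      (blk 5 6 (k + 1) (p + 1) ++ blk 4 6 (k + 1) q) := by
  rw [blk_succ' 5, List.append_assoc]
  refine lf_append (mkM _ _ _) ?_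
  rw [List.nil_append, blk_succ]
  refine lf_append ?_ (mkU ?_ _ _)
  · rw [List.replicate_succ]
    refine LFRew.cons (y := [5, 6]) (W := {3, 4}) (by simp [GG]) ?_ (mkB _ _)
    intro Z hZ h
    have := mem_blk hZ
    simp at h
    omega
  · intro h
    rcases List.mem_append.1 h with h | h
    · have := mem_blk h
      omega
    · rcases List.mem_cons.1 h with h | h
      · omega
      · have := List.eq_of_mem_replicate h
        omega

theorem reachSW (j : ℕ) :
    Relation.ReflTransGen GG.Step [2] (2 :: List.replicate j 3) := by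
  induction j with
  | zero => exact Relation.ReflTransGen.refl
  | succ j ih =>
    refine ih.tail ⟨by simp, ?_⟩
    have h1 : LFRew GG.P ([] ++ [2]) (List.replicate j 3) (List.replicate j 3) :=
      mkW (by simp) j
    have := LFRew.cons (P := GG.P) (left := []) (X := 2) (y := [2, 3]) (W := ∅) (by simp [GG])
      (by simp) h1
    rw [List.replicate_succ]
    exact this

theorem reachW (j : ℕ) : Relation.ReflTransGen GG.Step [2] (List.replicate (j + 1) 3) := by
  refine (reachSW j).tail ⟨by simp, ?_⟩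
  have h1 : LFRew GG.P ([] ++ [2]) (List.replicate j 3) (List.replicate j 3) :=
    mkW (by simp) j
  have := LFRew.cons (P := GG.P) (left := []) (X := 2) (y := [3]) (W := ∅) (by simp [GG])
    (by simp) h1
  rw [List.replicate_succ]
  exact this

theorem reachU (j : ℕ) : Relation.ReflTransGen GG.Step [2] (blk 4 6 0 (j + 1)) := by
  have hblk : ∀ n, List.replicate n 4 = blk 4 6 0 n := by
    intro n
    induction n with
    | zero => rfl
    | succ n ih => rw [List.replicate_succ, blk_succ, ih]; rfl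
  rw [← hblk]
  refine (reachW j).tail ⟨by simp, mkU0 (by simp) _⟩

theorem reachBlocks (m : ℕ) (hm : 1 ≤ m) : ∀ i ≤ m,
    Relation.ReflTransGen GG.Step [2] (blk 5 6 i i ++ blk 4 6 i (m - i)) := by
  intro i
  induction i with
  | zero =>
    intro _
    rw [blk_zero, List.nil_append]
    obtain ⟨j, rfl⟩ : ∃ j, m = j + 1 := ⟨m - 1, by omega⟩
    exact reachU j
  | succ i ih =>
    intro hi
    obtain ⟨q, hq⟩ : ∃ q, m - i = q + 1 := ⟨m - i - 1, by omega⟩
    have h1 := ih (by omega)
    rw [hq] at h1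
    have hq' : m - (i + 1) = q := by omega
    rw [hq']
    refine h1.tail ⟨?_, mkUM i i q⟩
    rw [blk_succ 4]
    simp

theorem reachM (m : ℕ) (hm : 1 ≤ m) (d : ℕ) :
    Relation.ReflTransGen GG.Step [2] (blk 5 6 (m + d) m) := by
  induction d with
  | zero =>
    have h := reachBlocks m hm m le_rfl
    rw [Nat.sub_self, blk_zero, List.append_nil] at h
    exact h
  | succ d ih =>
    refine ih.tail ⟨?_, mkM _ _ _⟩
    obtain ⟨j, rfl⟩ : ∃ j, m = j + 1 := ⟨m - 1, by omega⟩
    rw [blk_succ]
    simp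

theorem sub_lang : LL ⊆ GG.lang := by
  rintro x ⟨m, n, hm, hmn, rfl⟩
  refine ⟨?_, ?_⟩
  · intro s hs
    have := mem_blk hs
    simp [GG]
    exact this
  · obtain ⟨d, rfl⟩ := Nat.exists_eq_add_of_le hmn
    refine (reachM m hm d).tail ⟨?_, mkM' _ _ _⟩
    obtain ⟨j, rfl⟩ : ∃ j, m = j + 1 := ⟨m - 1, by omega⟩
    rw [blk_succ]
    simp

/-- There is a propagating left forbidding E0L grammar whose language is generated by no ET0L
grammar. -/
theorem result : ∃ G : LFE0L, G.Propagating ∧ ∀ H : ET0L, H.lang ≠ G.lang := by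
  refine ⟨GG, GG_prop, fun H => ?_⟩
  rw [Set.Subset.antisymm lang_sub sub_lang]
  exact not_ET0L H

end Pool.Agent.Results.MP_7f9305_lc.LFNotET0L
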